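import Pool.Agent.V11263.GaussD

namespace Pool.Agent.Results.MP_18219f_mp.Additive

open Matrix Pool.Agent.V11263.Gauss

/-- The phase space coordinates of `n₁ + n₂` modes: first those of the first `n₁` modes, then those
of the last `n₂` modes. -/
def splitModes (n₁ n₂ : ℕ) : Fin (n₁ + n₂) × Fin 2 ≃ (Fin n₁ × Fin 2) ⊕ (Fin n₂ × Fin 2) :=
  ((finSumFinEquiv.symm : Fin (n₁ + n₂) ≃ Fin n₁ ⊕ Fin n₂).prodCongr (Equiv.refl (Fin 2))).trans
    (Equiv.sumProdDistrib (Fin n₁) (Fin n₂) (Fin 2))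

/-- The block-diagonal matrix `A ⊕ B` on `n₁ + n₂` modes. -/
def directSum {n₁ n₂ : ℕ} (A : Matrix (Fin n₁ × Fin 2) (Fin n₁ × Fin 2) ℝ)
    (B : Matrix (Fin n₂ × Fin 2) (Fin n₂ × Fin 2) ℝ) :
    Matrix (Fin (n₁ + n₂) × Fin 2) (Fin (n₁ + n₂) × Fin 2) ℝ :=
  (fromBlocks A 0 0 B).submatrix (splitModes n₁ n₂) (splitModes n₁ n₂)

variable {n₁ n₂ : ℕ}

lemma directSum_mul (A A' : Matrix (Fin n₁ × Fin 2) (Fin n₁ × Fin 2) ℝ)
    (B B' : Matrix (Fin n₂ × Fin 2) (Fin n₂ × Fin 2) ℝ) :
    directSum A B * directSum A' B' = directSum (A * A') (B * B') := by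
  rw [directSum, directSum, Matrix.submatrix_mul_equiv, Matrix.fromBlocks_multiply, directSum]
  simp

lemma directSum_transpose (A : Matrix (Fin n₁ × Fin 2) (Fin n₁ × Fin 2) ℝ)
    (B : Matrix (Fin n₂ × Fin 2) (Fin n₂ × Fin 2) ℝ) :
    (directSum A B)ᵀ = directSum Aᵀ Bᵀ := by
  rw [directSum, Matrix.transpose_submatrix, Matrix.fromBlocks_transpose]
  rfl

lemma directSum_sub (A A' : Matrix (Fin n₁ × Fin 2) (Fin n₁ × Fin 2) ℝ)
    (B B' : Matrix (Fin n₂ × Fin 2) (Fin n₂ × Fin 2) ℝ) :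
    directSum A B - directSum A' B' = directSum (A - A') (B - B') := by
  ext p q
  simp only [directSum, Matrix.sub_apply, Matrix.submatrix_apply]
  rcases splitModes n₁ n₂ p with i | i <;> rcases splitModes n₁ n₂ q with j | j <;> simp

/-- The symplectic form of `n₁ + n₂` modes is the direct sum. -/
lemma symplForm_directSum : symplForm (n₁ + n₂) = directSum (symplForm n₁) (symplForm n₂) := by
  ext p q
  obtain ⟨i, a⟩ := p
  obtain ⟨j, b⟩ := q
  obtain ⟨i, rfl⟩ := finSumFinEquiv.surjective i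
  obtain ⟨j, rfl⟩ := finSumFinEquiv.surjective j
  have h : ∀ (i : Fin n₁ ⊕ Fin n₂) (a : Fin 2), splitModes n₁ n₂ (finSumFinEquiv i, a) =
      Sum.map (fun k => (k, a)) (fun k => (k, a)) i := by
    intro i a
    rcases i with i | i <;>
      simp [splitModes, Equiv.prodCongr_apply]
  rw [directSum, Matrix.submatrix_apply, h, h]
  rcases i with i | i <;> rcases j with j | j <;>
    simp [symplForm, Matrix.kroneckerMap_apply, Matrix.one_apply, Fin.ext_iff]
  · intro hc
    have := i.2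
    omega
  · intro hc
    have := j.2
    omega

lemma directSum_psd {A : Matrix (Fin n₁ × Fin 2) (Fin n₁ × Fin 2) ℝ}
    {B : Matrix (Fin n₂ × Fin 2) (Fin n₂ × Fin 2) ℝ} (hA : A.PosSemidef) (hB : B.PosSemidef) :
    (directSum A B).PosSemidef := by
  obtain ⟨C, hC, hCC⟩ := exists_sqrt hA
  obtain ⟨D, hD, hDD⟩ := exists_sqrt hB
  have e : directSum A B = (directSum C D)ᴴ * directSum C D := by
    rw [Matrix.conjTranspose_eq_transpose_of_trivial, directSum_transpose, hC, hD, directSum_mul,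
      hCC, hDD]
  rw [e]
  exact Matrix.posSemidef_conjTranspose_mul_self _

lemma pc_directSum (A : Matrix (Fin n₁ × Fin 2) (Fin n₁ × Fin 2) ℝ)
    (B : Matrix (Fin n₂ × Fin 2) (Fin n₂ × Fin 2) ℝ) :
    pc (directSum A B) = pc A + pc B := by
  rw [directSum, pc_submatrix, pc_blocks]

lemma sub_add {γA : Matrix (Fin n₁ × Fin 2) (Fin n₁ × Fin 2) ℝ}
    {γB : Matrix (Fin n₂ × Fin 2) (Fin n₂ × Fin 2) ℝ} {a b : ℝ} (ha : a ∈ admissible γA)
    (hb : b ∈ admissible γB) : a + b ∈ admissible (directSum γA γB) := by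
  obtain ⟨S, hS, hSl, rfl⟩ := ha
  obtain ⟨T, hT, hTl, rfl⟩ := hb
  have hST : IsSymplectic (directSum S T) := by
    rw [IsSymplectic, symplForm_directSum, directSum_transpose, directSum_mul, directSum_mul,
      hS, hT]
  refine ⟨directSum S T, hST, ?_, ?_⟩
  · rw [directSum_transpose, directSum_mul, directSum_sub]
    exact directSum_psd hSl hTl
  · rw [squeezing_eq hS, squeezing_eq hT, squeezing_eq hST, directSum_transpose, directSum_mul,
      pc_directSum]
    ring

lemma super {γA : Matrix (Fin n₁ × Fin 2) (Fin n₁ × Fin 2) ℝ}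
    {γB : Matrix (Fin n₂ × Fin 2) (Fin n₂ × Fin 2) ℝ} {c : ℝ}
    (hc : c ∈ admissible (directSum γA γB)) :
    ∃ a ∈ admissible γA, ∃ b ∈ admissible γB, a + b ≤ c := by
  obtain ⟨S, hS, hSl, rfl⟩ := hc
  set e := splitModes n₁ n₂ with he
  set Z := (Sᵀ * S).submatrix e.symm e.symm with hZ
  have hZt : Zᵀ = Z := by
    rw [hZ, Matrix.transpose_submatrix, Matrix.transpose_mul, Matrix.transpose_transpose]
  have hZb : Z = fromBlocks Z.toBlocks₁₁ Z.toBlocks₁₂ Z.toBlocks₁₂ᵀ Z.toBlocks₂₂ := by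
    have h21 : Z.toBlocks₂₁ = Z.toBlocks₁₂ᵀ := by
      ext i j
      exact (congrFun (congrFun hZt (Sum.inr i)) (Sum.inl j)).symm
    rw [← h21, Matrix.fromBlocks_toBlocks]
  set S' := S.submatrix e.symm e.symm with hS'
  have hJe : (symplForm (n₁ + n₂)).submatrix e.symm e.symm =
      fromBlocks (symplForm n₁) 0 0 (symplForm n₂) := by
    rw [symplForm_directSum, directSum, Matrix.submatrix_submatrix, he, Equiv.self_comp_symm,
      Matrix.submatrix_id_id]
  have hJ' : IsCS (fromBlocks (symplForm n₁) 0 0 (symplForm n₂)) := by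
    constructor
    · rw [Matrix.fromBlocks_transpose, (symplForm_cs n₁).skew, (symplForm_cs n₂).skew,
        Matrix.fromBlocks_neg]
      simp
    · rw [Matrix.fromBlocks_multiply, (symplForm_cs n₁).sq, (symplForm_cs n₂).sq]
      simp only [Matrix.mul_zero, Matrix.zero_mul, add_zero, zero_add]
      rw [← Matrix.fromBlocks_one, Matrix.fromBlocks_neg]
      simp
  have hSym : Pool.Agent.V11263.Gauss.Sym (fromBlocks (symplForm n₁) 0 0 (symplForm n₂)) S' := by
    rw [Pool.Agent.V11263.Gauss.Sym, ← hJe, hS', Matrix.transpose_submatrix, Matrix.submatrix_mul_equiv,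
      Matrix.submatrix_mul_equiv, hS]
  have hZ2 : Z = S'ᵀ * S' := by
    rw [hZ, hS', Matrix.transpose_submatrix, Matrix.submatrix_mul_equiv]
  have hZpd := hSym.gram_pd hJ'
  have hZu := gram_unc hJ' hSym
  have hZs := hSym.gram hJ'
  rw [← hZ2, hZb] at hZpd hZu hZs
  obtain ⟨SA, SB, h1, h2, h3, h4, h5⟩ := super_core (symplForm_cs n₁) (symplForm_cs n₂) hZpd hZu hZs
  have hle : (fromBlocks γA 0 0 γB - Z).PosSemidef := by
    have := hSl.submatrix e.symm
    have e2 : (directSum γA γB - Sᵀ * S).submatrix e.symm e.symm =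
        fromBlocks γA 0 0 γB - Z := by
      have e4 : (directSum γA γB).submatrix e.symm e.symm = fromBlocks γA 0 0 γB := by
        rw [directSum, Matrix.submatrix_submatrix, he, Equiv.self_comp_symm,
          Matrix.submatrix_id_id]
      rw [hZ, ← e4]
      rfl
    rwa [e2] at this
  refine ⟨squeezing SA, ⟨SA, h1, ?_, rfl⟩, squeezing SB, ⟨SB, h2, ?_, rfl⟩, ?_⟩
  · have e3 : γA - SAᵀ * SA = (γA - Z.toBlocks₁₁) + (Z.toBlocks₁₁ - SAᵀ * SA) := by abel
    rw [e3]
    exact (hle.submatrix Sum.inl).add h3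
  · have e3 : γB - SBᵀ * SB = (γB - Z.toBlocks₂₂) + (Z.toBlocks₂₂ - SBᵀ * SB) := by abel
    rw [e3]
    exact (hle.submatrix Sum.inr).add h4
  · rw [squeezing_eq h1, squeezing_eq h2, squeezing_eq hS]
    rw [← hZb, hZ, pc_submatrix] at h5
    linarith

/-- MP_18219f, Q1: the squeezing measure `G` is additive. -/
theorem result (n₁ n₂ : ℕ) (γA : Matrix (Fin n₁ × Fin 2) (Fin n₁ × Fin 2) ℝ)
    (γB : Matrix (Fin n₂ × Fin 2) (Fin n₂ × Fin 2) ℝ) (hA : IsCovariance γA)
    (hB : IsCovariance γB) : G (directSum γA γB) = G γA + G γB := by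
  apply le_antisymm
  · have h1 : ∀ a ∈ admissible γA, ∀ b ∈ admissible γB, G (directSum γA γB) ≤ a + b :=
      fun a ha b hb => csInf_le (admissible_bdd _) (sub_add ha hb)
    have h2 : ∀ a ∈ admissible γA, G (directSum γA γB) - a ≤ G γB := by
      intro a ha
      refine le_csInf (admissible_nonempty hB) fun b hb => ?_
      linarith [h1 a ha b hb]
    have h3 : G (directSum γA γB) - G γB ≤ G γA := by
      refine le_csInf (admissible_nonempty hA) fun a ha => ?_
      linarith [h2 a ha]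
    linarith
  · obtain ⟨a, ha⟩ := admissible_nonempty hA
    obtain ⟨b, hb⟩ := admissible_nonempty hB
    refine le_csInf ⟨_, sub_add ha hb⟩ fun c hc => ?_
    obtain ⟨a', ha', b', hb', hab⟩ := super hc
    have h1 : G γA ≤ a' := csInf_le (admissible_bdd _) ha'
    have h2 : G γB ≤ b' := csInf_le (admissible_bdd _) hb'
    linarith

end Pool.Agent.Results.MP_18219f_mp.Additive
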